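import Mathlib
import Pool.Agent.MP_ee26cf_co.Bridge

section

set_option autoImplicit false

namespace Pool.Agent.MP_ee26cf_co

/-- The first-moment base. -/
noncomputable def tt (s1 s2 s3 b1 b2 b3 : ℝ) : ℝ :=
  (97 / 84 * (b2 / s2 + b3 / s3)) ^ 3 * (s1 ^ 3 + s2 ^ 3 + s3 ^ 3 + 97 / 84 * (s2 ^ 3 + s3 ^ 3)) +
  (97 / 84 * (b1 / s1 + b3 / s3)) ^ 3 * (s1 ^ 3 + s2 ^ 3 + s3 ^ 3 + 97 / 84 * (s1 ^ 3 + s3 ^ 3)) +
  (97 / 84 * (b1 / s1 + b2 / s2)) ^ 3 * (s1 ^ 3 + s2 ^ 3 + s3 ^ 3 + 97 / 84 * (s1 ^ 3 + s2 ^ 3))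

lemma cube_conv {a b t : ℝ} (ha : 0 ≤ a) (hb : 0 ≤ b) (h0 : 0 ≤ t) (h1 : t ≤ 1) :
    ((1 - t) * a + t * b) ^ 3 ≤ (1 - t) * a ^ 3 + t * b ^ 3 := by
  have h : (1 - t) * a ^ 3 + t * b ^ 3 - ((1 - t) * a + t * b) ^ 3 =
      t * (1 - t) * (a - b) ^ 2 * ((2 - t) * a + (1 + t) * b) := by ring
  have h2 : 0 ≤ t * (1 - t) * (a - b) ^ 2 * ((2 - t) * a + (1 + t) * b) := by
    have : 0 ≤ 1 - t := by linarith
    have : 0 ≤ 2 - t := by linarith
    positivity
  linarith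

lemma tt_conv {s1 s2 s3 a1 a2 a3 c1 c2 c3 t L : ℝ} (h1 : 0 < s1) (h2 : 0 < s2) (h3 : 0 < s3)
    (ha1 : 0 ≤ a1) (ha2 : 0 ≤ a2) (ha3 : 0 ≤ a3) (hc1 : 0 ≤ c1) (hc2 : 0 ≤ c2) (hc3 : 0 ≤ c3)
    (t0 : 0 ≤ t) (t1 : t ≤ 1) (hA : tt s1 s2 s3 a1 a2 a3 ≤ L) (hC : tt s1 s2 s3 c1 c2 c3 ≤ L) :
    tt s1 s2 s3 ((1 - t) * a1 + t * c1) ((1 - t) * a2 + t * c2) ((1 - t) * a3 + t * c3) ≤ L := by
  have key : ∀ p q x y u v : ℝ, 0 < p → 0 < q → 0 ≤ x → 0 ≤ y → 0 ≤ u → 0 ≤ v →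
      (97 / 84 * (((1 - t) * x + t * u) / p + ((1 - t) * y + t * v) / q)) ^ 3 ≤
      (1 - t) * (97 / 84 * (x / p + y / q)) ^ 3 + t * (97 / 84 * (u / p + v / q)) ^ 3 := by
    intro p q x y u v hp hq hx hy hu hv
    have := cube_conv (a := 97 / 84 * (x / p + y / q)) (b := 97 / 84 * (u / p + v / q))
      (by positivity) (by positivity) t0 t1
    have e : 97 / 84 * (((1 - t) * x + t * u) / p + ((1 - t) * y + t * v) / q) =
        (1 - t) * (97 / 84 * (x / p + y / q)) + t * (97 / 84 * (u / p + v / q)) := by ring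
    rw [e]; exact this
  have k1 := mul_le_mul_of_nonneg_right (key s2 s3 a2 a3 c2 c3 h2 h3 ha2 ha3 hc2 hc3)
    (show (0 : ℝ) ≤ s1 ^ 3 + s2 ^ 3 + s3 ^ 3 + 97 / 84 * (s2 ^ 3 + s3 ^ 3) by positivity)
  have k2 := mul_le_mul_of_nonneg_right (key s1 s3 a1 a3 c1 c3 h1 h3 ha1 ha3 hc1 hc3)
    (show (0 : ℝ) ≤ s1 ^ 3 + s2 ^ 3 + s3 ^ 3 + 97 / 84 * (s1 ^ 3 + s3 ^ 3) by positivity)
  have k3 := mul_le_mul_of_nonneg_right (key s1 s2 a1 a2 c1 c2 h1 h2 ha1 ha2 hc1 hc2)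
    (show (0 : ℝ) ≤ s1 ^ 3 + s2 ^ 3 + s3 ^ 3 + 97 / 84 * (s1 ^ 3 + s2 ^ 3) by positivity)
  have m1 := mul_le_mul_of_nonneg_left hA (show 0 ≤ 1 - t by linarith)
  have m2 := mul_le_mul_of_nonneg_left hC t0
  unfold tt at *
  nlinarith

/-- Integer seventh root by bisection. -/
def root7 (n : ℕ) : ℕ :=
  [1024, 512, 256, 128, 64, 32, 16, 8, 4, 2, 1].foldl
    (fun r b => if (r + b) ^ 7 ≤ n then r + b else r) 0

def sf (B : ℕ) : ℕ := root7 (10 ^ 14 * (B + 19) ^ 2) + 1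

def chk (s1 s2 s3 B1 B2 B3 : ℕ) : Bool :=
  Nat.ble (100 * 97 ^ 3 *
    ((s1 * (B2 * s3 + B3 * s2)) ^ 3 * (84 * (s1 ^ 3 + s2 ^ 3 + s3 ^ 3) + 97 * (s2 ^ 3 + s3 ^ 3)) +
     (s2 * (B1 * s3 + B3 * s1)) ^ 3 * (84 * (s1 ^ 3 + s2 ^ 3 + s3 ^ 3) + 97 * (s1 ^ 3 + s3 ^ 3)) +
     (s3 * (B1 * s2 + B2 * s1)) ^ 3 * (84 * (s1 ^ 3 + s2 ^ 3 + s3 ^ 3) + 97 * (s1 ^ 3 + s2 ^ 3))))
    (798 * 84 ^ 4 * 1600 ^ 3 * (s1 * s2 * s3) ^ 3)

lemma chk_sound {s1 s2 s3 B1 B2 B3 : ℕ} (h1 : 0 < s1) (h2 : 0 < s2) (h3 : 0 < s3)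
    (h : chk s1 s2 s3 B1 B2 B3 = true) :
    tt s1 s2 s3 (B1 / 1600) (B2 / 1600) (B3 / 1600) ≤ 798 / 100 := by
  have h' := Nat.le_of_ble_eq_true h
  have hr : (100 * 97 ^ 3 *
    (((s1 : ℝ) * (B2 * s3 + B3 * s2)) ^ 3 * (84 * (s1 ^ 3 + s2 ^ 3 + s3 ^ 3) + 97 * (s2 ^ 3 + s3 ^ 3)) +
     (s2 * (B1 * s3 + B3 * s1)) ^ 3 * (84 * (s1 ^ 3 + s2 ^ 3 + s3 ^ 3) + 97 * (s1 ^ 3 + s3 ^ 3)) +
     (s3 * (B1 * s2 + B2 * s1)) ^ 3 * (84 * (s1 ^ 3 + s2 ^ 3 + s3 ^ 3) + 97 * (s1 ^ 3 + s2 ^ 3)))) ≤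
    (798 * 84 ^ 4 * 1600 ^ 3 * (s1 * s2 * s3) ^ 3) := by exact_mod_cast h'
  have p1 : (0 : ℝ) < s1 := by exact_mod_cast h1
  have p2 : (0 : ℝ) < s2 := by exact_mod_cast h2
  have p3 : (0 : ℝ) < s3 := by exact_mod_cast h3
  have e : tt s1 s2 s3 (B1 / 1600) (B2 / 1600) (B3 / 1600) = (100 * 97 ^ 3 *
    (((s1 : ℝ) * (B2 * s3 + B3 * s2)) ^ 3 * (84 * (s1 ^ 3 + s2 ^ 3 + s3 ^ 3) + 97 * (s2 ^ 3 + s3 ^ 3)) +
     (s2 * (B1 * s3 + B3 * s1)) ^ 3 * (84 * (s1 ^ 3 + s2 ^ 3 + s3 ^ 3) + 97 * (s1 ^ 3 + s3 ^ 3)) +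
     (s3 * (B1 * s2 + B2 * s1)) ^ 3 * (84 * (s1 ^ 3 + s2 ^ 3 + s3 ^ 3) + 97 * (s1 ^ 3 + s2 ^ 3)))) /
     (100 * 84 ^ 4 * 1600 ^ 3 * (s1 * s2 * s3) ^ 3) := by
    unfold tt; field_simp
  rw [e, div_le_iff₀ (by positivity)]
  linarith

def cell (i j : ℕ) : Bool :=
  let s1 := sf ((2 * i + 1) * 80)
  let s2 := sf ((79 - 2 * i) * (2 * j + 1))
  let s3 := sf ((79 - 2 * i) * (79 - 2 * j))
  chk s1 s2 s3 (40 * i) ((40 - i) * j) ((40 - i) * (40 - j)) &&
  chk s1 s2 s3 (40 * i) ((40 - i) * (j + 1)) ((40 - i) * (39 - j)) &&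
  chk s1 s2 s3 (40 * (i + 1)) ((39 - i) * j) ((39 - i) * (40 - j)) &&
  chk s1 s2 s3 (40 * (i + 1)) ((39 - i) * (j + 1)) ((39 - i) * (39 - j))

lemma all_cells : (List.range 40).all (fun i => (List.range 40).all (fun j => cell i j)) = true := by
  decide +kernel

lemma exists_idx {u : ℝ} (h0 : 0 ≤ u) (h1 : u ≤ 1) :
    ∃ i : ℕ, i < 40 ∧ ∃ t : ℝ, 0 ≤ t ∧ t ≤ 1 ∧ u = (i + t) / 40 := by
  by_cases h : u = 1
  · exact ⟨39, by norm_num, 1, by norm_num, by norm_num, by rw [h]; norm_num⟩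
  · have hlt : u < 1 := lt_of_le_of_ne h1 h
    refine ⟨⌊40 * u⌋₊, ?_, 40 * u - ⌊40 * u⌋₊, ?_, ?_, by ring⟩
    · rw [Nat.floor_lt (by positivity)]; push_cast; linarith
    · have := Nat.floor_le (show 0 ≤ 40 * u by positivity); linarith
    · have := Nat.lt_floor_add_one (40 * u); linarith

theorem grid {b1 b2 b3 : ℝ} (h1 : 0 ≤ b1) (h2 : 0 ≤ b2) (h3 : 0 ≤ b3) (hs : b1 + b2 + b3 = 1) :
    ∃ s1 s2 s3 : ℝ, 0 < s1 ∧ 0 < s2 ∧ 0 < s3 ∧ tt s1 s2 s3 b1 b2 b3 ≤ 798 / 100 := by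
  obtain ⟨v, v0, v1, hv2, hv3⟩ : ∃ v : ℝ, 0 ≤ v ∧ v ≤ 1 ∧ b2 = (1 - b1) * v ∧
      b3 = (1 - b1) * (1 - v) := by
    by_cases h : b1 = 1
    · refine ⟨0, le_rfl, zero_le_one, ?_, ?_⟩ <;> rw [h] <;> linarith
    · have hp : 0 < 1 - b1 := by
        have : b1 ≤ 1 := by linarith
        exact sub_pos.2 (lt_of_le_of_ne this h)
      refine ⟨b2 / (1 - b1), by positivity, ?_, by field_simp, ?_⟩
      · rw [div_le_one hp]; linarith
      · field_simp; linarith
  obtain ⟨i, hi, t, t0, t1, hu⟩ := exists_idx h1 (by linarith)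
  obtain ⟨j, hj, r, r0, r1, hv⟩ := exists_idx v0 v1
  have hc : cell i j = true := by
    have := all_cells
    rw [List.all_eq_true] at this
    have := this i (List.mem_range.2 hi)
    rw [List.all_eq_true] at this
    exact this j (List.mem_range.2 hj)
  unfold cell at hc
  simp only [Bool.and_eq_true] at hc
  obtain ⟨⟨⟨c1, c2⟩, c3⟩, c4⟩ := hc
  have sp : ∀ B, 0 < sf B := fun B => Nat.succ_pos _
  have d1 := chk_sound (sp _) (sp _) (sp _) c1
  have d2 := chk_sound (sp _) (sp _) (sp _) c2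
  have d3 := chk_sound (sp _) (sp _) (sp _) c3
  have d4 := chk_sound (sp _) (sp _) (sp _) c4
  have n1 := sp ((2 * i + 1) * 80)
  have n2 := sp ((79 - 2 * i) * (2 * j + 1))
  have n3 := sp ((79 - 2 * i) * (79 - 2 * j))
  clear c1 c2 c3 c4 sp
  generalize sf ((2 * i + 1) * 80) = s1 at *
  generalize sf ((79 - 2 * i) * (2 * j + 1)) = s2 at *
  generalize sf ((79 - 2 * i) * (79 - 2 * j)) = s3 at *
  have q1 : (0 : ℝ) < s1 := by exact_mod_cast n1
  have q2 : (0 : ℝ) < s2 := by exact_mod_cast n2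
  have q3 : (0 : ℝ) < s3 := by exact_mod_cast n3
  refine ⟨_, _, _, q1, q2, q3, ?_⟩
  have e12 := tt_conv q1 q2 q3 (by positivity) (by positivity) (by positivity) (by positivity)
    (by positivity) (by positivity) r0 r1 d1 d2
  have e34 := tt_conv q1 q2 q3 (by positivity) (by positivity) (by positivity) (by positivity)
    (by positivity) (by positivity) r0 r1 d3 d4
  have r1' : 0 ≤ 1 - r := by linarith
  have e := tt_conv q1 q2 q3 (by positivity) (by positivity) (by positivity) (by positivity)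
    (by positivity) (by positivity) t0 t1 e12 e34
  have i40 : ((40 - i : ℕ) : ℝ) = 40 - i := by rw [Nat.cast_sub (by omega)]; norm_num
  have i39 : ((39 - i : ℕ) : ℝ) = 39 - i := by rw [Nat.cast_sub (by omega)]; norm_num
  have j40 : ((40 - j : ℕ) : ℝ) = 40 - j := by rw [Nat.cast_sub (by omega)]; norm_num
  have j39 : ((39 - j : ℕ) : ℝ) = 39 - j := by rw [Nat.cast_sub (by omega)]; norm_num
  simp only [Nat.cast_mul, Nat.cast_add, i40, i39, j40, j39, Nat.cast_ofNat, Nat.cast_one] at e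
  have f1 : b1 = (1 - t) * ((1 - r) * (40 * (i : ℝ) / 1600) + r * (40 * i / 1600)) +
      t * ((1 - r) * (40 * (i + 1) / 1600) + r * (40 * (i + 1) / 1600)) := by rw [hu]; ring
  have f2 : b2 = (1 - t) * ((1 - r) * ((40 - (i : ℝ)) * j / 1600) + r * ((40 - i) * (j + 1) / 1600)) +
      t * ((1 - r) * ((39 - i) * j / 1600) + r * ((39 - i) * (j + 1) / 1600)) := by
    rw [hv2, hu, hv]; ring
  have f3 : b3 = (1 - t) * ((1 - r) * ((40 - (i : ℝ)) * (40 - j) / 1600) +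
      r * ((40 - i) * (39 - j) / 1600)) +
      t * ((1 - r) * ((39 - i) * (40 - j) / 1600) + r * ((39 - i) * (39 - j) / 1600)) := by
    rw [hv3, hu, hv]; ring
  rw [← f1, ← f2, ← f3] at e
  exact e

end Pool.Agent.MP_ee26cf_co

end

section

set_option autoImplicit false

namespace Pool.Agent.MP_ee26cf_co

open Finset Classical

variable {X Y κ : Type} 

/-- A pair of colourings is proper for the edge set `E`. -/
def Prp (E : Finset (X × Y)) (p : (X → κ) × (Y → κ)) : Prop := ∀ e ∈ E, p.1 e.1 ≠ p.2 e.2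

/-- Reachability from `v` through allowed vertices. -/
inductive Rch (E : Finset (X × Y)) (A : X → Prop) (B : Y → Prop) (v : Y) : X ⊕ Y → Prop
  | base : Rch E A B v (Sum.inr v)
  | toX {x : X} {y : Y} : Rch E A B v (Sum.inr y) → (x, y) ∈ E → A x → Rch E A B v (Sum.inl x)
  | toY {x : X} {y : Y} : Rch E A B v (Sum.inl x) → (x, y) ∈ E → B y → Rch E A B v (Sum.inr y)

def Kr (E : Finset (X × Y)) (v : Y) (a b : κ) (p : (X → κ) × (Y → κ)) : X ⊕ Y → Prop :=
  Rch E (fun x => p.1 x = a ∨ p.1 x = b) (fun y => p.2 y = a ∨ p.2 y = b) v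

noncomputable def ksw (E : Finset (X × Y)) (v : Y) (a b : κ) (p : (X → κ) × (Y → κ)) :
    (X → κ) × (Y → κ) :=
  (fun x => if Kr E v a b p (Sum.inl x) then Equiv.swap a b (p.1 x) else p.1 x,
   fun y => if Kr E v a b p (Sum.inr y) then Equiv.swap a b (p.2 y) else p.2 y)

lemma swap_mem (a b c : κ) : (Equiv.swap a b c = a ∨ Equiv.swap a b c = b) ↔ (c = a ∨ c = b) := by
  rw [Equiv.swap_apply_eq_iff, Equiv.swap_apply_eq_iff, Equiv.swap_apply_left,
    Equiv.swap_apply_right, or_comm]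

lemma Kr_ksw (E : Finset (X × Y)) (v : Y) (a b : κ) (p : (X → κ) × (Y → κ)) :
    Kr E v a b (ksw E v a b p) = Kr E v a b p := by
  have h1 : (fun x => (ksw E v a b p).1 x = a ∨ (ksw E v a b p).1 x = b) =
      (fun x => p.1 x = a ∨ p.1 x = b) := by
    funext x
    simp only [ksw]
    split_ifs
    · exact propext (swap_mem a b _)
    · rfl
  have h2 : (fun y => (ksw E v a b p).2 y = a ∨ (ksw E v a b p).2 y = b) =
      (fun y => p.2 y = a ∨ p.2 y = b) := by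
    funext x
    simp only [ksw]
    split_ifs
    · exact propext (swap_mem a b _)
    · rfl
  unfold Kr
  rw [h1, h2]

lemma ksw_ksw (E : Finset (X × Y)) (v : Y) (a b : κ) (p : (X → κ) × (Y → κ)) :
    ksw E v a b (ksw E v a b p) = p := by
  have h := Kr_ksw E v a b p
  ext x
  · show (if Kr E v a b (ksw E v a b p) (Sum.inl x) then Equiv.swap a b ((ksw E v a b p).1 x)
      else (ksw E v a b p).1 x) = p.1 x
    rw [h]
    by_cases hx : Kr E v a b p (Sum.inl x) <;> simp [ksw, hx]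
  · show (if Kr E v a b (ksw E v a b p) (Sum.inr x) then Equiv.swap a b ((ksw E v a b p).2 x)
      else (ksw E v a b p).2 x) = p.2 x
    rw [h]
    by_cases hx : Kr E v a b p (Sum.inr x) <;> simp [ksw, hx]

lemma Kr_par {E : Finset (X × Y)} {v : Y} {a b : κ} {p : (X → κ) × (Y → κ)} (hp : Prp E p)
    (hv : p.2 v = a) {w : X ⊕ Y} (h : Kr E v a b p w) :
    Sum.elim (fun x => p.1 x = b ∧ p.1 x ≠ a) (fun y => p.2 y = a) w := by
  induction h with
  | base => exact hv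
  | toX _ he hA ih =>
    have := hp _ he
    simp only [Sum.elim_inr, Sum.elim_inl] at ih ⊢
    rw [ih] at this
    rcases hA with h | h
    · exact absurd h this
    · exact ⟨h, this⟩
  | toY _ he hB ih =>
    have := hp _ he
    simp only [Sum.elim_inr, Sum.elim_inl] at ih ⊢
    rw [ih.1] at this
    rcases hB with h | h
    · exact h
    · exact absurd h.symm this

lemma ksw_prp {E : Finset (X × Y)} {v : Y} {a b : κ} {p : (X → κ) × (Y → κ)} (hp : Prp E p)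
    (hv : p.2 v = a) : Prp E (ksw E v a b p) := by
  rintro ⟨x, y⟩ he
  have hne := hp _ he
  simp only [ksw] at hne ⊢
  by_cases hx : Kr E v a b p (Sum.inl x) <;> by_cases hy : Kr E v a b p (Sum.inr y)
  · simp only [hx, hy, if_true]
    exact fun h => hne ((Equiv.swap a b).injective h)
  · simp only [hx, hy, if_true, if_false]
    intro h
    have hxb : p.1 x = b := (Kr_par hp hv hx).1
    apply hy
    refine Rch.toY hx he ?_
    rw [← h]
    exact (swap_mem a b _).2 (Or.inr hxb)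
  · simp only [hx, hy, if_true, if_false]
    intro h
    have hya : p.2 y = a := Kr_par hp hv hy
    apply hx
    refine Rch.toX hy he ?_
    rw [h]
    exact (swap_mem a b _).2 (Or.inl hya)
  · simpa only [hx, hy, if_false] using hne

variable [Fintype X] [Fintype Y] [Fintype κ]

/-- The number of proper pairs of colourings. -/
noncomputable def cnt (κ : Type) [Fintype κ] (E : Finset (X × Y)) : ℕ :=
  (univ.filter (fun p : (X → κ) × (Y → κ) => Prp E p)).card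

lemma kempe (E : Finset (X × Y)) (u : X) (v : Y) :
    (univ.filter (fun p : (X → κ) × (Y → κ) => Prp E p ∧ p.1 u = p.2 v)).card * Fintype.card κ ≤
      cnt κ E := by
  rw [← Finset.card_univ, ← Finset.card_product]
  have key : ∀ (p : (X → κ) × (Y → κ)) (b : κ), Prp E p → p.1 u = p.2 v →
      (ksw E v (p.1 u) b p).1 u = p.1 u ∧ (ksw E v (p.1 u) b p).2 v = b := by
    intro p b hp huv
    constructor
    · have : ¬ Kr E v (p.1 u) b p (Sum.inl u) := fun h => (Kr_par hp huv.symm h).2 rfl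
      simp [ksw, this]
    · have : Kr E v (p.1 u) b p (Sum.inr v) := Rch.base
      simp [ksw, this, ← huv]
  refine Finset.card_le_card_of_injOn (fun z => ksw E v (z.1.1 u) z.2 z.1) ?_ ?_
  · rintro ⟨p, b⟩ hz
    simp only [coe_product, Set.mem_prod, coe_filter, mem_univ, true_and, Set.mem_setOf_eq,
      coe_univ, Set.mem_univ, and_true] at hz ⊢
    exact ksw_prp hz.1 hz.2.symm
  · rintro ⟨p, b⟩ hz ⟨p', b'⟩ hz' h
    simp only [coe_product, Set.mem_prod, coe_filter, mem_univ, true_and, Set.mem_setOf_eq,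
      coe_univ, Set.mem_univ, and_true] at hz hz' h
    obtain ⟨k1, k2⟩ := key p b hz.1 hz.2
    obtain ⟨k3, k4⟩ := key p' b' hz'.1 hz'.2
    have ea : p.1 u = p'.1 u := by rw [← k1, ← k3, h]
    have eb : b = b' := by rw [← k2, ← k4, h]
    subst eb
    have : p = p' := by
      rw [← ksw_ksw E v (p.1 u) b p, h, ea, ksw_ksw]
    rw [this]

lemma cnt_insert (E : Finset (X × Y)) (e : X × Y) :
    cnt κ (insert e E) +
      (univ.filter (fun p : (X → κ) × (Y → κ) => Prp E p ∧ p.1 e.1 = p.2 e.2)).card = cnt κ E := by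
  unfold cnt
  rw [← Finset.card_filter_add_card_filter_not (s := univ.filter (fun p : (X → κ) × (Y → κ) => Prp E p))
    (fun p => p.1 e.1 ≠ p.2 e.2), Finset.filter_filter, Finset.filter_filter]
  congr 2
  · ext p
    simp only [mem_filter, mem_univ, true_and, Prp, mem_insert, forall_eq_or_imp]
    tauto
  · ext p
    simp

theorem cnt4_lower (E : Finset (X × Y)) :
    3 ^ E.card * 4 ^ (Fintype.card X + Fintype.card Y) ≤ 4 ^ E.card * cnt (Fin 4) E := by
  induction E using Finset.induction_on with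
  | empty => simp [cnt, Prp, pow_add]
  | insert e E he ih =>
    rw [Finset.card_insert_of_notMem he]
    have h1 := cnt_insert (κ := Fin 4) E e
    have h2 := kempe (κ := Fin 4) E e.1 e.2
    rw [Fintype.card_fin] at h2
    have h3 : 3 * cnt (Fin 4) E ≤ 4 * cnt (Fin 4) (insert e E) := by omega
    calc 3 ^ (E.card + 1) * 4 ^ (Fintype.card X + Fintype.card Y)
        = 3 * (3 ^ E.card * 4 ^ (Fintype.card X + Fintype.card Y)) := by ring
      _ ≤ 3 * (4 ^ E.card * cnt (Fin 4) E) := Nat.mul_le_mul_left _ ih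
      _ = 4 ^ E.card * (3 * cnt (Fin 4) E) := by ring
      _ ≤ 4 ^ E.card * (4 * cnt (Fin 4) (insert e E)) := Nat.mul_le_mul_left _ h3
      _ = 4 ^ (E.card + 1) * cnt (Fin 4) (insert e E) := by ring

end Pool.Agent.MP_ee26cf_co

end

section

set_option autoImplicit false

namespace Pool.Agent.MP_ee26cf_co

open Finset

/-- The size of a colour class. -/
def prof {N : ℕ} (ψ : Fin N → Fin 3) (j : Fin 3) : ℕ := (univ.filter (fun v => ψ v = j)).card

lemma fiber_le {N : ℕ} (ψ f : Fin N → Fin 3) :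
    (univ.filter (fun σ : Equiv.Perm (Fin N) => (fun x => ψ (σ x)) = f)).card ≤
      ∏ j, (prof ψ j).factorial := by
  have h := DomMulAct.stabilizer_card ψ
  have h2 : ∏ j, (prof ψ j).factorial = ∏ i, (Fintype.card {a // ψ a = i}).factorial := by
    refine Finset.prod_congr rfl fun j _ => ?_
    rw [Fintype.card_subtype]; rfl
  rw [h2, ← h, Fintype.card_subtype]
  rcases (univ.filter (fun σ : Equiv.Perm (Fin N) => (fun x => ψ (σ x)) = f)).eq_empty_or_nonempty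
    with he | ⟨σ0, h0⟩
  · rw [he]; simp
  · refine Finset.card_le_card_of_injOn (fun σ => σ * σ0⁻¹) ?_ ?_
    · intro σ hσ
      simp only [coe_filter, mem_univ, true_and, Set.mem_ofPred_eq, mem_filter] at hσ h0 ⊢
      funext x
      have e1 := congrFun hσ (σ0⁻¹ x)
      have e2 := congrFun h0 (σ0⁻¹ x)
      simp only [Function.comp, Equiv.Perm.mul_apply]
      rw [e1, ← e2]
      simp
    · intro σ _ τ _ h
      exact mul_right_cancel h

lemma perm_bound {N : ℕ} (ψ : Fin N → Fin 3) (w : Fin N → Fin 3 → ℝ) (y : Fin 3 → ℝ)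
    (hw : ∀ x j, 0 ≤ w x j) (hy : ∀ j, 0 ≤ y j) :
    (∑ σ : Equiv.Perm (Fin N), ∏ x, w x (ψ (σ x))) * ∏ v, y (ψ v) ≤
      ((∏ j, (prof ψ j).factorial : ℕ) : ℝ) * ∏ x, ∑ j, w x j * y j := by
  rw [Fintype.prod_sum (fun x j => w x j * y j), Finset.sum_mul, Finset.mul_sum]
  have e : ∀ σ : Equiv.Perm (Fin N), (∏ x, w x (ψ (σ x))) * ∏ v, y (ψ v) =
      ∏ x, w x (ψ (σ x)) * y (ψ (σ x)) := by
    intro σ
    rw [Finset.prod_mul_distrib, Equiv.prod_comp σ (fun v => y (ψ v))]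
  simp only [e]
  rw [← Finset.sum_fiberwise (s := univ) (g := fun σ : Equiv.Perm (Fin N) => (fun x => ψ (σ x)))]
  refine Finset.sum_le_sum fun f _ => ?_
  have hF : 0 ≤ ∏ x, w x (f x) * y (f x) :=
    Finset.prod_nonneg fun x _ => mul_nonneg (hw _ _) (hy _)
  calc ∑ σ ∈ univ.filter (fun σ : Equiv.Perm (Fin N) => (fun x => ψ (σ x)) = f),
        ∏ x, w x (ψ (σ x)) * y (ψ (σ x))
      = ∑ σ ∈ univ.filter (fun σ : Equiv.Perm (Fin N) => (fun x => ψ (σ x)) = f),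
        ∏ x, w x (f x) * y (f x) := by
        refine Finset.sum_congr rfl fun σ hσ => ?_
        rw [← (Finset.mem_filter.1 hσ).2]
    _ = _ * ∏ x, w x (f x) * y (f x) := by rw [Finset.sum_const, nsmul_eq_mul]
    _ ≤ _ := mul_le_mul_of_nonneg_right (by exact_mod_cast fiber_le ψ f) hF

lemma fact_up_aux (n : ℕ) :
    ((n + 1).factorial : ℝ) * Real.exp (n + 1) ≤ Real.exp 1 * (n + 1) ^ (n + 2) := by
  induction n with
  | zero => simp
  | succ n ih =>
    have h := Real.one_sub_div_pow_le_exp_neg (n := n + 2) (t := 1) (by push_cast; linarith [Nat.cast_nonneg (α := ℝ) n])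
    have hp : (0 : ℝ) < n + 2 := by positivity
    have e : (1 - 1 / ((n + 2 : ℕ) : ℝ)) = (n + 1) / (n + 2) := by
      push_cast; field_simp; ring
    rw [e, div_pow, div_le_iff₀ (by positivity)] at h
    have h2 : Real.exp 1 * ((n : ℝ) + 1) ^ (n + 2) ≤ (n + 2) ^ (n + 2) := by
      have := mul_le_mul_of_nonneg_left h (Real.exp_pos 1).le
      rwa [← mul_assoc, ← Real.exp_add, add_neg_cancel, Real.exp_zero, one_mul] at this
    rw [Nat.factorial_succ (n + 1)]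
    push_cast
    rw [Real.exp_add ((n : ℝ) + 1) 1]
    calc ((n : ℝ) + 1 + 1) * ((n + 1).factorial : ℝ) * (Real.exp (n + 1) * Real.exp 1)
        = (Real.exp 1 * (n + 2)) * (((n + 1).factorial : ℝ) * Real.exp (n + 1)) := by ring
      _ ≤ (Real.exp 1 * (n + 2)) * (n + 2) ^ (n + 2) :=
          mul_le_mul_of_nonneg_left (ih.trans h2) (by positivity)
      _ = Real.exp 1 * ((n : ℝ) + 1 + 1) ^ (n + 1 + 2) := by ring

lemma fact_up (n : ℕ) : (n.factorial : ℝ) * Real.exp n ≤ 3 * (n + 1) * (n : ℝ) ^ n := by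
  rcases n with _ | n
  · simp
  · have h := fact_up_aux n
    have h3 := Real.exp_one_lt_three.le
    push_cast
    calc _ ≤ Real.exp 1 * ((n : ℝ) + 1) ^ (n + 2) := h
      _ ≤ 3 * ((n : ℝ) + 1) ^ (n + 2) := by gcongr
      _ = 3 * ((n : ℝ) + 1) * ((n : ℝ) + 1) ^ (n + 1) := by ring
      _ ≤ 3 * ((n : ℝ) + 1 + 1) * ((n : ℝ) + 1) ^ (n + 1) := by gcongr; linarith

lemma prof_sum {N : ℕ} (ψ : Fin N → Fin 3) : prof ψ 0 + prof ψ 1 + prof ψ 2 = N := by
  have h := Finset.card_eq_sum_card_fiberwise (f := ψ) (s := univ) (t := univ) (fun _ _ => by simp)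
  rw [Fin.sum_univ_three] at h
  simp only [card_univ, Fintype.card_fin] at h
  exact h.symm

lemma prod_prof {N : ℕ} (ψ : Fin N → Fin 3) (g : Fin 3 → ℝ) :
    ∏ v, g (ψ v) = g 0 ^ prof ψ 0 * g 1 ^ prof ψ 1 * g 2 ^ prof ψ 2 := by
  rw [← Finset.prod_fiberwise' (s := univ) (g := ψ) (f := g), Fin.prod_univ_three]
  simp [prof]

lemma fact_bound {N : ℕ} (hN : 0 < N) (ψ : Fin N → Fin 3) :
    ((∏ j, (prof ψ j).factorial : ℕ) : ℝ) ≤
      27 * (N + 1) ^ 3 * N.factorial * ∏ v, ((prof ψ (ψ v) : ℝ) / N) := by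
  rw [prod_prof ψ (fun j => (prof ψ j : ℝ) / N), Fin.prod_univ_three]
  have hs := prof_sum ψ
  generalize prof ψ 0 = a at *
  generalize prof ψ 1 = b at *
  generalize prof ψ 2 = c at *
  have hN' : (0 : ℝ) < N := by exact_mod_cast hN
  have h1 := fact_up a
  have h2 := fact_up b
  have h3 := fact_up c
  have h4 := Real.pow_div_factorial_le_exp (x := N) hN'.le N
  have hf : (0 : ℝ) < N.factorial := by exact_mod_cast N.factorial_pos
  rw [div_le_iff₀ hf] at h4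
  have hsr : (a : ℝ) + b + c = N := by exact_mod_cast hs
  have ha : (a : ℝ) + 1 ≤ N + 1 := by have := Nat.cast_nonneg (α := ℝ) b; have := Nat.cast_nonneg (α := ℝ) c; linarith
  have hb : (b : ℝ) + 1 ≤ N + 1 := by have := Nat.cast_nonneg (α := ℝ) a; have := Nat.cast_nonneg (α := ℝ) c; linarith
  have hc : (c : ℝ) + 1 ≤ N + 1 := by have := Nat.cast_nonneg (α := ℝ) b; have := Nat.cast_nonneg (α := ℝ) a; linarith
  have he : Real.exp N = Real.exp a * Real.exp b * Real.exp c := by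
    rw [← Real.exp_add, ← Real.exp_add, hsr]
  have hp : (N : ℝ) ^ N = (N : ℝ) ^ a * (N : ℝ) ^ b * (N : ℝ) ^ c := by
    rw [← pow_add, ← pow_add, hs]
  have h5 : ((a.factorial : ℝ) * b.factorial * c.factorial) * Real.exp N ≤
      27 * (N + 1) ^ 3 * ((a : ℝ) ^ a * (b : ℝ) ^ b * (c : ℝ) ^ c) := by
    calc ((a.factorial : ℝ) * b.factorial * c.factorial) * Real.exp N
        = (a.factorial * Real.exp a) * (b.factorial * Real.exp b) * (c.factorial * Real.exp c) := by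
          rw [he]; ring
      _ ≤ (3 * (N + 1) * (a : ℝ) ^ a) * (3 * (N + 1) * (b : ℝ) ^ b) * (3 * (N + 1) * (c : ℝ) ^ c) := by
          have g1 : a.factorial * Real.exp a ≤ 3 * (N + 1) * (a : ℝ) ^ a := h1.trans (by gcongr)
          have g2 : b.factorial * Real.exp b ≤ 3 * (N + 1) * (b : ℝ) ^ b := h2.trans (by gcongr)
          have g3 : c.factorial * Real.exp c ≤ 3 * (N + 1) * (c : ℝ) ^ c := h3.trans (by gcongr)
          exact mul_le_mul (mul_le_mul g1 g2 (by positivity) (by positivity)) g3 (by positivity)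
            (by positivity)
      _ = _ := by ring
  push_cast
  rw [div_pow, div_pow, div_pow, div_mul_div_comm, div_mul_div_comm, ← hp, ← mul_div_assoc,
    le_div_iff₀ (by positivity)]
  calc ((a.factorial : ℝ) * b.factorial * c.factorial) * (N : ℝ) ^ N
      ≤ ((a.factorial : ℝ) * b.factorial * c.factorial) * (Real.exp N * N.factorial) := by gcongr
    _ = (((a.factorial : ℝ) * b.factorial * c.factorial) * Real.exp N) * N.factorial := by ring
    _ ≤ (27 * (N + 1) ^ 3 * ((a : ℝ) ^ a * (b : ℝ) ^ b * (c : ℝ) ^ c)) * N.factorial := by gcongr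
    _ = _ := by ring

lemma self_sum {N : ℕ} (hN : 0 < N) :
    ∑ ψ : Fin N → Fin 3, ∏ v, ((prof ψ (ψ v) : ℝ) / N) ≤ (N + 1) ^ 3 := by
  have hN' : (0 : ℝ) < N := by exact_mod_cast hN
  have hmaps : ∀ ψ ∈ (univ : Finset (Fin N → Fin 3)),
      prof ψ ∈ (Fintype.piFinset (fun _ : Fin 3 => range (N + 1))).filter
        (fun b => b 0 + b 1 + b 2 = N) := by
    intro ψ _
    have := prof_sum ψ
    simp only [mem_filter, Fintype.mem_piFinset, mem_range]
    refine ⟨fun j => ?_, this⟩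
    fin_cases j <;> simp <;> omega
  rw [← Finset.sum_fiberwise_of_maps_to hmaps]
  calc _ ≤ ∑ b ∈ (Fintype.piFinset (fun _ : Fin 3 => range (N + 1))).filter
        (fun b => b 0 + b 1 + b 2 = N), (1 : ℝ) := by
        refine Finset.sum_le_sum fun b hb => ?_
        have hb' : (b 0 : ℝ) + b 1 + b 2 = N := by exact_mod_cast (Finset.mem_filter.1 hb).2
        calc _ = ∑ ψ ∈ univ.filter (fun ψ : Fin N → Fin 3 => prof ψ = b),
              ∏ v, ((b (ψ v) : ℝ) / N) := by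
              refine Finset.sum_congr rfl fun ψ hψ => ?_
              rw [(Finset.mem_filter.1 hψ).2]
          _ ≤ ∑ ψ : Fin N → Fin 3, ∏ v, ((b (ψ v) : ℝ) / N) :=
              Finset.sum_le_sum_of_subset_of_nonneg (Finset.filter_subset _ _)
                (fun ψ _ _ => Finset.prod_nonneg fun v _ => by positivity)
          _ = (∑ j, (b j : ℝ) / N) ^ N := (Fintype.sum_pow (fun j => (b j : ℝ) / N) N).symm
          _ = 1 := by
              rw [Fin.sum_univ_three, ← add_div, ← add_div, hb', div_self hN'.ne', one_pow]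
    _ ≤ _ := by
        rw [Finset.sum_const, nsmul_eq_mul, mul_one]
        have := Finset.card_filter_le (Fintype.piFinset (fun _ : Fin 3 => range (N + 1)))
          (fun b => b 0 + b 1 + b 2 = N)
        rw [Fintype.card_piFinset_const, card_range] at this
        exact_mod_cast this

end Pool.Agent.MP_ee26cf_co

end

section

set_option autoImplicit false

namespace Pool.Agent.MP_ee26cf_co

open Finset

/-- The weight of an edge whose ends have colours `a` and `b`. -/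
noncomputable def ew (a b : Fin 3) : ℝ := if a = b then 0 else 97 / 84

lemma ew_nonneg (a b : Fin 3) : 0 ≤ ew a b := by
  unfold ew; split_ifs <;> norm_num

noncomputable def sA {N : ℕ} (φ ψ : Fin N → Fin 3) : ℝ :=
  ∑ σ : Equiv.Perm (Fin N), ∏ x, ew (φ x) (ψ (σ x))

noncomputable def sB {N : ℕ} (φ ψ : Fin N → Fin 3) : ℝ :=
  ∑ σ : Equiv.Perm (Fin N), ∏ x, (1 + ew (φ x) (ψ (σ x)))

lemma psi_bound {N : ℕ} (hN : 0 < N) (ψ : Fin N → Fin 3) :
    ∑ φ : Fin N → Fin 3, sA φ ψ ^ 3 * sB φ ψ ≤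
      (27 * (N + 1) ^ 3 * N.factorial) ^ 4 * (798 / 100) ^ N * ∏ v, ((prof ψ (ψ v) : ℝ) / N) := by
  have hN' : (0 : ℝ) < N := by exact_mod_cast hN
  set β : Fin 3 → ℝ := fun j => (prof ψ j : ℝ) / N with hβ
  have β0 : ∀ j, 0 ≤ β j := fun j => by simp only [hβ]; positivity
  have βs : β 0 + β 1 + β 2 = 1 := by
    have : (prof ψ 0 : ℝ) + prof ψ 1 + prof ψ 2 = N := by exact_mod_cast prof_sum ψ
    simp only [hβ]
    rw [← add_div, ← add_div, this, div_self hN'.ne']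
  obtain ⟨s1, s2, s3, p1, p2, p3, hT⟩ := grid (β0 0) (β0 1) (β0 2) βs
  set s : Fin 3 → ℝ := ![s1, s2, s3] with hs
  have s0 : ∀ j, 0 < s j := fun j => by fin_cases j <;> simpa [hs]
  set t : Fin 3 → ℝ := fun c => (∑ j, ew c j * (β j / s j)) ^ 3 * ∑ j, (1 + ew c j) * s j ^ 3
    with ht
  have t0 : ∀ c, 0 ≤ t c := fun c => by
    refine mul_nonneg (pow_nonneg (Finset.sum_nonneg fun j _ => ?_) _)
      (Finset.sum_nonneg fun j _ => ?_)
    · exact mul_nonneg (ew_nonneg _ _) (div_nonneg (β0 j) (s0 j).le)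
    · exact mul_nonneg (add_nonneg zero_le_one (ew_nonneg _ _)) (pow_nonneg (s0 j).le _)
  have tsum : ∑ c, t c = tt s1 s2 s3 (β 0) (β 1) (β 2) := by
    simp only [ht, Fin.sum_univ_three, hs, ew, tt]
    simp
    ring
  set π : ℝ := ∏ v, β (ψ v) with hπ
  have π0 : 0 < π := Finset.prod_pos fun v _ => by
    have : 0 < prof ψ (ψ v) := Finset.card_pos.2 ⟨v, by simp⟩
    simp only [hβ]; positivity
  set F : ℝ := ((∏ j, (prof ψ j).factorial : ℕ) : ℝ) with hF
  set Q : ℝ := 27 * (N + 1) ^ 3 * N.factorial with hQ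
  have hFQ : F ≤ Q * π := fact_bound hN ψ
  have F0 : 0 ≤ F := Nat.cast_nonneg _
  have Q0 : 0 ≤ Q := by positivity
  have one : ∀ φ : Fin N → Fin 3, sA φ ψ ^ 3 * sB φ ψ ≤ Q ^ 4 * π * ∏ x, t (φ x) := by
    intro φ
    have hA := perm_bound ψ (fun x j => ew (φ x) j) (fun j => β j / s j)
      (fun x j => ew_nonneg _ _) (fun j => div_nonneg (β0 j) (s0 j).le)
    have hB := perm_bound ψ (fun x j => 1 + ew (φ x) j) (fun j => s j ^ 3)
      (fun x j => add_nonneg zero_le_one (ew_nonneg _ _)) (fun j => pow_nonneg (s0 j).le _)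
    have A0 : 0 ≤ sA φ ψ :=
      Finset.sum_nonneg fun σ _ => Finset.prod_nonneg fun x _ => ew_nonneg _ _
    have y0 : 0 ≤ ∏ v, β (ψ v) / s (ψ v) :=
      Finset.prod_nonneg fun v _ => div_nonneg (β0 _) (s0 _).le
    have hA3 := pow_le_pow_left₀ (mul_nonneg A0 y0) hA 3
    have B0 : 0 ≤ sB φ ψ * ∏ v, s (ψ v) ^ 3 :=
      mul_nonneg (Finset.sum_nonneg fun σ _ => Finset.prod_nonneg fun x _ =>
        add_nonneg zero_le_one (ew_nonneg _ _))
        (Finset.prod_nonneg fun v _ => pow_nonneg (s0 _).le _)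
    have hAB := mul_le_mul hA3 hB B0 ((pow_nonneg (mul_nonneg A0 y0) 3).trans hA3)
    have e1 : (∏ v, β (ψ v) / s (ψ v)) ^ 3 * ∏ v, s (ψ v) ^ 3 = π ^ 3 := by
      rw [← Finset.prod_pow, ← Finset.prod_mul_distrib, hπ, ← Finset.prod_pow]
      refine Finset.prod_congr rfl fun v _ => ?_
      have := (s0 (ψ v)).ne'
      field_simp
    have e2 : (∏ x, ∑ j, ew (φ x) j * (β j / s j)) ^ 3 * ∏ x, ∑ j, (1 + ew (φ x) j) * s j ^ 3 =
        ∏ x, t (φ x) := by
      rw [← Finset.prod_pow, ← Finset.prod_mul_distrib]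
    have T0 : 0 ≤ ∏ x, t (φ x) := Finset.prod_nonneg fun x _ => t0 _
    have h3 : (sA φ ψ ^ 3 * sB φ ψ) * π ^ 3 ≤ (Q ^ 4 * π * ∏ x, t (φ x)) * π ^ 3 := by
      calc (sA φ ψ ^ 3 * sB φ ψ) * π ^ 3
          = (sA φ ψ * ∏ v, β (ψ v) / s (ψ v)) ^ 3 * (sB φ ψ * ∏ v, s (ψ v) ^ 3) := by
            rw [← e1]; ring
        _ ≤ _ := hAB
        _ = F ^ 4 * ∏ x, t (φ x) := by rw [← e2]; ring
        _ ≤ (Q * π) ^ 4 * ∏ x, t (φ x) := by gcongr
        _ = _ := by ring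
    exact le_of_mul_le_mul_right h3 (by positivity)
  calc _ ≤ ∑ φ : Fin N → Fin 3, Q ^ 4 * π * ∏ x, t (φ x) := Finset.sum_le_sum fun φ _ => one φ
    _ = Q ^ 4 * π * (∑ c, t c) ^ N := by rw [← Finset.mul_sum, Fintype.sum_pow]
    _ ≤ Q ^ 4 * π * (798 / 100) ^ N := by
        gcongr
        · exact Finset.sum_nonneg fun c _ => t0 c
        · rw [tsum]; exact hT
    _ = _ := by ring

/-- The edge set made of three perfect matchings and part of a fourth. -/
def edges {N : ℕ} (σ1 σ2 σ3 σ4 : Equiv.Perm (Fin N)) (S : Finset (Fin N)) :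
    Finset (Fin N × Fin N) :=
  univ.image (fun x => (x, σ1 x)) ∪ univ.image (fun x => (x, σ2 x)) ∪
    univ.image (fun x => (x, σ3 x)) ∪ S.image (fun x => (x, σ4 x))

lemma edges_card {N : ℕ} (σ1 σ2 σ3 σ4 : Equiv.Perm (Fin N)) (S : Finset (Fin N)) :
    (edges σ1 σ2 σ3 σ4 S).card ≤ N + N + N + S.card := by
  have h : ∀ σ : Equiv.Perm (Fin N), (univ.image (fun x => (x, σ x))).card ≤ N := fun σ =>
    Finset.card_image_le.trans (by simp)
  have h4 : (S.image (fun x => (x, σ4 x))).card ≤ S.card := Finset.card_image_le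
  unfold edges
  refine (Finset.card_union_le _ _).trans (Nat.add_le_add ?_ h4)
  refine (Finset.card_union_le _ _).trans (Nat.add_le_add ?_ (h _))
  exact (Finset.card_union_le _ _).trans (Nat.add_le_add (h _) (h _))

lemma cnt_weight {N : ℕ} (σ1 σ2 σ3 σ4 : Equiv.Perm (Fin N)) (S : Finset (Fin N)) :
    (cnt (Fin 3) (edges σ1 σ2 σ3 σ4 S) : ℝ) * (97 / 84) ^ (N + N + N + S.card) ≤
      ∑ p : (Fin N → Fin 3) × (Fin N → Fin 3),
        (∏ x, ew (p.1 x) (p.2 (σ1 x))) * (∏ x, ew (p.1 x) (p.2 (σ2 x))) *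
        (∏ x, ew (p.1 x) (p.2 (σ3 x))) * ∏ x ∈ S, ew (p.1 x) (p.2 (σ4 x)) := by
  classical
  unfold cnt
  rw [← nsmul_eq_mul, ← Finset.sum_const]
  refine le_trans (le_of_eq (Finset.sum_congr rfl fun p hp => ?_))
    (Finset.sum_le_sum_of_subset_of_nonneg (fun p _ => Finset.mem_univ p)
    (fun p _ _ => mul_nonneg (mul_nonneg (mul_nonneg (Finset.prod_nonneg fun x _ => ew_nonneg _ _)
      (Finset.prod_nonneg fun x _ => ew_nonneg _ _)) (Finset.prod_nonneg fun x _ => ew_nonneg _ _))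
      (Finset.prod_nonneg fun x _ => ew_nonneg _ _)))
  have hp' := (Finset.mem_filter.1 hp).2
  have k : ∀ (σ : Equiv.Perm (Fin N)) (T : Finset (Fin N)),
      (∀ x ∈ T, (x, σ x) ∈ edges σ1 σ2 σ3 σ4 S) →
      ∏ x ∈ T, ew (p.1 x) (p.2 (σ x)) = (97 / 84) ^ T.card := by
    intro σ T h
    rw [← Finset.prod_const]
    refine Finset.prod_congr rfl fun x hx => ?_
    have := hp' _ (h x hx)
    simp only [ew]
    rw [if_neg this]
  rw [k σ1 univ (fun x _ => by simp [edges]), k σ2 univ (fun x _ => by simp [edges]),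
    k σ3 univ (fun x _ => by simp [edges]),
    k σ4 S (fun x hx => Finset.mem_union_right _ (Finset.mem_image_of_mem _ hx))]
  simp only [card_univ, Fintype.card_fin, pow_add]

lemma total {N : ℕ} (hN : 0 < N) :
    ∑ d : (Equiv.Perm (Fin N) × Equiv.Perm (Fin N) × Equiv.Perm (Fin N) × Equiv.Perm (Fin N)) ×
        Finset (Fin N),
      (cnt (Fin 3) (edges d.1.1 d.1.2.1 d.1.2.2.1 d.1.2.2.2 d.2) : ℝ) *
        (97 / 84) ^ (N + N + N + d.2.card) ≤
      (27 * (N + 1) ^ 3 * N.factorial) ^ 4 * (798 / 100) ^ N * (N + 1) ^ 3 := by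
  refine (Finset.sum_le_sum fun d _ => cnt_weight _ _ _ _ _).trans ?_
  rw [Finset.sum_comm]
  have e : ∀ p : (Fin N → Fin 3) × (Fin N → Fin 3),
      ∑ d : (Equiv.Perm (Fin N) × Equiv.Perm (Fin N) × Equiv.Perm (Fin N) × Equiv.Perm (Fin N)) ×
        Finset (Fin N),
        (∏ x, ew (p.1 x) (p.2 (d.1.1 x))) * (∏ x, ew (p.1 x) (p.2 (d.1.2.1 x))) *
        (∏ x, ew (p.1 x) (p.2 (d.1.2.2.1 x))) * ∏ x ∈ d.2, ew (p.1 x) (p.2 (d.1.2.2.2 x)) =
      sA p.1 p.2 ^ 3 * sB p.1 p.2 := by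
    intro p
    have eB : sB p.1 p.2 = ∑ σ : Equiv.Perm (Fin N), ∑ S : Finset (Fin N),
        ∏ x ∈ S, ew (p.1 x) (p.2 (σ x)) := by
      unfold sB
      refine Finset.sum_congr rfl fun σ _ => ?_
      rw [Finset.prod_one_add, Finset.powerset_univ]
    simp only [Fintype.sum_prod_type]
    simp only [← Finset.mul_sum]
    rw [← eB]
    simp only [← Finset.sum_mul, ← Finset.mul_sum]
    unfold sA
    ring
  simp only [e]
  rw [Fintype.sum_prod_type_right]
  refine (Finset.sum_le_sum fun ψ _ => psi_bound hN ψ).trans ?_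
  rw [← Finset.mul_sum]
  exact mul_le_mul_of_nonneg_left (self_sum hN) (by positivity)

lemma exists_data {N : ℕ} (hN : 0 < N) :
    ∃ (σ1 σ2 σ3 σ4 : Equiv.Perm (Fin N)) (S : Finset (Fin N)),
      (cnt (Fin 3) (edges σ1 σ2 σ3 σ4 S) : ℝ) * (97 / 84) ^ (N + N + N + S.card) ≤
      27 ^ 4 * (N + 1) ^ 15 * (399 / 100) ^ N := by
  have h := total hN
  have e : (27 * ((N : ℝ) + 1) ^ 3 * N.factorial) ^ 4 * (798 / 100) ^ N * (N + 1) ^ 3 =
      ∑ _d : (Equiv.Perm (Fin N) × Equiv.Perm (Fin N) × Equiv.Perm (Fin N) × Equiv.Perm (Fin N)) ×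
        Finset (Fin N), (27 ^ 4 * ((N : ℝ) + 1) ^ 15 * (399 / 100) ^ N) := by
    rw [Finset.sum_const, nsmul_eq_mul, card_univ]
    simp only [Fintype.card_prod, Fintype.card_perm, Fintype.card_fin, Fintype.card_finset]
    push_cast
    rw [show (798 / 100 : ℝ) = 2 * (399 / 100) by norm_num, mul_pow 2]
    ring
  rw [e] at h
  obtain ⟨d, _, hd⟩ := Finset.exists_le_of_sum_le Finset.univ_nonempty h
  exact ⟨_, _, _, _, _, hd⟩

theorem exists_bip (K : ℕ) :
    ∃ (N : ℕ) (σ1 σ2 σ3 σ4 : Equiv.Perm (Fin N)) (S : Finset (Fin N)), 2 ≤ N ∧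
      K * cnt (Fin 3) (edges σ1 σ2 σ3 σ4 S) ^ 2 ≤ cnt (Fin 4) (edges σ1 σ2 σ3 σ4 S) := by
  set r : ℝ := (399 / 100) ^ 2 / 16 with hr
  have r0 : 0 < r := by positivity
  have hlim := (tendsto_pow_const_mul_const_pow_of_abs_lt_one 30
    (show |r| < 1 by rw [abs_of_pos r0, hr]; norm_num)).const_mul ((K : ℝ) * 27 ^ 8 / r)
  rw [mul_zero] at hlim
  obtain ⟨M, hM⟩ := Filter.eventually_atTop.1 (hlim.eventually (ge_mem_nhds zero_lt_one))
  have hM' := hM (M + 2 + 1) (by omega)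
  obtain ⟨σ1, σ2, σ3, σ4, S, hd⟩ := exists_data (N := M + 2) (by omega)
  refine ⟨M + 2, σ1, σ2, σ3, σ4, S, by omega, ?_⟩
  have hc := edges_card σ1 σ2 σ3 σ4 S
  have h4 := cnt4_lower (edges σ1 σ2 σ3 σ4 S)
  generalize M + 2 = N at *
  generalize N + N + N + S.card = e at *
  generalize cnt (Fin 3) (edges σ1 σ2 σ3 σ4 S) = c3 at *
  generalize cnt (Fin 4) (edges σ1 σ2 σ3 σ4 S) = c4 at *
  generalize (edges σ1 σ2 σ3 σ4 S).card = m at *
  simp only [Fintype.card_fin] at h4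
  have h4r : (3 : ℝ) ^ m * 4 ^ (N + N) ≤ 4 ^ m * c4 := by exact_mod_cast h4
  have h5 : (16 : ℝ) ^ N ≤ (4 / 3) ^ m * c4 := by
    rw [div_pow, div_mul_eq_mul_div, le_div_iff₀ (by positivity)]
    calc (16 : ℝ) ^ N * 3 ^ m = 3 ^ m * 4 ^ (N + N) := by
          rw [pow_add, ← mul_pow, mul_comm]; norm_num
      _ ≤ _ := h4r
  have h6 : (4 / 3 : ℝ) ^ m ≤ ((97 / 84) ^ e) ^ 2 := by
    calc (4 / 3 : ℝ) ^ m ≤ (4 / 3) ^ e := pow_le_pow_right₀ (by norm_num) hc
      _ ≤ ((97 / 84) ^ 2) ^ e := pow_le_pow_left₀ (by norm_num) (by norm_num) _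
      _ = _ := by rw [← pow_mul, ← pow_mul, mul_comm]
  have h7 := pow_le_pow_left₀ (by positivity) hd 2
  have h8 : (K : ℝ) * (27 ^ 4 * ((N : ℝ) + 1) ^ 15 * (399 / 100) ^ N) ^ 2 ≤ 16 ^ N := by
    have e1 : (K : ℝ) * (27 ^ 4 * ((N : ℝ) + 1) ^ 15 * (399 / 100) ^ N) ^ 2 =
        ((K : ℝ) * 27 ^ 8 / r * (((N + 1 : ℕ) : ℝ) ^ 30 * r ^ (N + 1))) * 16 ^ N := by
      have e2 : ((399 / 100 : ℝ) ^ N) ^ 2 = r ^ N * 16 ^ N := by
        rw [← mul_pow, ← pow_mul, mul_comm N 2, pow_mul, hr]; norm_num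
      push_cast
      rw [mul_pow, e2, pow_succ r]
      field_simp
    rw [e1]
    exact mul_le_of_le_one_left (by positivity) hM'
  have h9 : ((K : ℝ) * c3 ^ 2) * 16 ^ N ≤ c4 * 16 ^ N := by
    calc ((K : ℝ) * c3 ^ 2) * 16 ^ N ≤ ((K : ℝ) * c3 ^ 2) * (((97 / 84) ^ e) ^ 2 * c4) := by
          gcongr
          exact h5.trans (by gcongr)
      _ = K * ((c3 : ℝ) * (97 / 84) ^ e) ^ 2 * c4 := by ring
      _ ≤ K * (27 ^ 4 * ((N : ℝ) + 1) ^ 15 * (399 / 100) ^ N) ^ 2 * c4 := by gcongr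
      _ ≤ 16 ^ N * c4 := by gcongr
      _ = _ := mul_comm _ _
  have := le_of_mul_le_mul_right h9 (by positivity)
  exact_mod_cast this

end Pool.Agent.MP_ee26cf_co

end

section

set_option autoImplicit false

namespace Pool.Agent.MP_ee26cf_co

open Finset

/-- The bipartite graph with edge set `E`. -/
def bip {X Y : Type} (E : Finset (X × Y)) : SimpleGraph (X ⊕ Y) where
  Adj a b := match a, b with
    | Sum.inl x, Sum.inr y => (x, y) ∈ E
    | Sum.inr y, Sum.inl x => (x, y) ∈ E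
    | Sum.inl _, Sum.inl _ => False
    | Sum.inr _, Sum.inr _ => False
  symm := ⟨fun a b => by cases a <;> cases b <;> simp⟩
  loopless := ⟨fun a => by cases a <;> simp⟩

lemma col_bip {X Y : Type} [Fintype X] [Fintype Y] (E : Finset (X × Y)) (k : ℕ) :
    Nat.card (Col (bip E) k) = cnt (Fin k) E := by
  have e : Col (bip E) k ≃ {p : (X → Fin k) × (Y → Fin k) // Prp E p} :=
    { toFun := fun c => ⟨(fun x => c.1 (Sum.inl x), fun y => c.1 (Sum.inr y)),
        fun e he => c.2 (Sum.inl e.1) (Sum.inr e.2) he⟩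
      invFun := fun p => ⟨Sum.elim p.1.1 p.1.2, fun a b hab => by
        cases a <;> cases b
        · exact hab.elim
        · exact p.2 _ hab
        · exact (p.2 _ hab).symm
        · exact hab.elim⟩
      left_inv := fun c => Subtype.ext (funext fun a => by cases a <;> rfl)
      right_inv := fun p => rfl }
  rw [Nat.card_congr e]
  unfold cnt
  exact Nat.subtype_card _ (fun p => by simp)

lemma ncard_four {α : Type} (s : Set α) (a b c d : α) (h : s ⊆ {a, b, c, d}) : s.ncard ≤ 4 := by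
  refine (Set.ncard_le_ncard h).trans ?_
  have h1 := Set.ncard_insert_le a ({b, c, d} : Set α)
  have h2 := Set.ncard_insert_le b ({c, d} : Set α)
  have h3 := Set.ncard_insert_le c ({d} : Set α)
  rw [Set.ncard_singleton] at h3
  omega

lemma deg_bip {N : ℕ} (σ1 σ2 σ3 σ4 : Equiv.Perm (Fin N)) (S : Finset (Fin N))
    (v : Fin N ⊕ Fin N) : ((bip (edges σ1 σ2 σ3 σ4 S)).neighborSet v).ncard ≤ 4 := by
  have key : ∀ x y, (x, y) ∈ edges σ1 σ2 σ3 σ4 S →
      σ1 x = y ∨ σ2 x = y ∨ σ3 x = y ∨ σ4 x = y := by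
    intro x y h
    simp only [edges, mem_union, mem_image, mem_univ, true_and, Prod.mk.injEq] at h
    rcases h with ((⟨a, rfl, h⟩ | ⟨a, rfl, h⟩) | ⟨a, rfl, h⟩) | ⟨a, _, rfl, h⟩ <;> simp [h]
  cases v with
  | inl x =>
    refine ncard_four _ (Sum.inr (σ1 x)) (Sum.inr (σ2 x)) (Sum.inr (σ3 x)) (Sum.inr (σ4 x)) ?_
    rintro (y | y) h
    · exact h.elim
    · rcases key x y h with h | h | h | h <;> simp [← h]
  | inr y =>
    refine ncard_four _ (Sum.inl (σ1.symm y)) (Sum.inl (σ2.symm y)) (Sum.inl (σ3.symm y))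
      (Sum.inl (σ4.symm y)) ?_
    rintro (x | x) h
    · rcases key x y h with h | h | h | h <;> simp [← h]
    · exact h.elim

theorem good (m : ℕ) : ∀ K : ℕ, ∃ (V : Type) (_ : Fintype V) (G : SimpleGraph V),
    Nonempty (Col G (m + 2)) ∧ IsEmpty (Col G (m + 1)) ∧ m + 4 ≤ Fintype.card V ∧
    K * Nat.card (Col G (m + 3)) ^ 2 ≤ Nat.card (Col G (m + 4)) ∧
    (m = 0 → ∀ v, (G.neighborSet v).ncard ≤ 4) := by
  induction m with
  | zero =>
    intro K
    obtain ⟨N, σ1, σ2, σ3, σ4, S, hN, h⟩ := exists_bip K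
    refine ⟨Fin N ⊕ Fin N, inferInstance, bip (edges σ1 σ2 σ3 σ4 S), ?_, ?_, ?_, ?_,
      fun _ => deg_bip _ _ _ _ _⟩
    · refine ⟨⟨Sum.elim (fun _ => 0) (fun _ => 1), fun a b hab => ?_⟩⟩
      cases a <;> cases b
      · exact hab.elim
      · simp
      · simp
      · exact hab.elim
    · refine ⟨fun c => c.2 (Sum.inl ⟨0, by omega⟩) (Sum.inr (σ1 ⟨0, by omega⟩)) ?_ ?_⟩
      · show (_, _) ∈ edges σ1 σ2 σ3 σ4 S
        simp [edges]
      · exact Fin.ext (by omega)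
    · simp; omega
    · rw [col_bip, col_bip]; exact h
  | succ m ih =>
    intro K
    obtain ⟨V, hV, G, h1, h2, h3, h4, -⟩ := ih (K * (m + 4) ^ 2)
    refine ⟨Option V, inferInstance, cone G, ?_, ?_, ?_, ?_, fun h => by omega⟩
    · have := cone_lower G (m + 2)
      have hp : 0 < Nat.card (Col G (m + 2)) := Nat.card_pos
      exact (Nat.card_pos_iff.1 (hp.trans_le this)).1
    · have := cone_upper G (m + 1)
      rw [Nat.card_of_isEmpty (α := Col G (m + 1)), mul_zero, Nat.le_zero, Nat.card_eq_zero] at this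
      exact this.resolve_right (not_infinite_iff_finite.2 inferInstance)
    · simp; omega
    · have a1 := cone_upper G (m + 3)
      have a2 := cone_lower G (m + 4)
      calc K * Nat.card (Col (cone G) (m + 1 + 3)) ^ 2
          ≤ K * ((m + 3 + 1) * Nat.card (Col G (m + 3))) ^ 2 := by gcongr
        _ = K * (m + 4) ^ 2 * Nat.card (Col G (m + 3)) ^ 2 := by ring
        _ ≤ _ := h4.trans a2

lemma col_iso {V W : Type} {G : SimpleGraph V} {H : SimpleGraph W} (φ : G ≃g H) (k : ℕ) :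
    Nonempty (Col G k ≃ Col H k) :=
  ⟨{ toFun := fun c => ⟨fun w => c.1 (φ.symm w), fun _ _ h => c.2 _ _ (φ.symm.map_adj_iff.2 h)⟩
     invFun := fun c => ⟨fun v => c.1 (φ v), fun _ _ h => c.2 _ _ (φ.map_adj_iff.2 h)⟩
     left_inv := fun c => Subtype.ext (funext fun v => by simp)
     right_inv := fun c => Subtype.ext (funext fun v => by simp) }⟩

theorem main (m K : ℕ) : ∃ (p : ℕ) (G : SimpleGraph (Fin p)),
    G.chromaticNumber = (m + 2 : ℕ) ∧ m + 4 ≤ p ∧ 0 < (Ptn G (m + 3)).ncard ∧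
    K * (Ptn G (m + 3)).ncard ^ 2 < (Ptn G (m + 2)).ncard * (Ptn G (m + 4)).ncard ∧
    (m = 0 → ∀ v, (G.neighborSet v).ncard ≤ 4) := by
  obtain ⟨V, hV, G0, g1, g2, h3, g4, g5⟩ := good m ((K + 1) * (m + 4) ^ (m + 4) + (m + 4))
  have φ := G0.overFinIso (n := Fintype.card V) rfl
  generalize G0.overFin (n := Fintype.card V) rfl = G at φ
  have ce : ∀ k, Nat.card (Col G0 k) = Nat.card (Col G k) := fun k =>
    Nat.card_congr (col_iso φ k).some
  have h1 : Nonempty (Col G (m + 2)) := ⟨(col_iso φ _).some g1.some⟩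
  have h2 : IsEmpty (Col G (m + 1)) := ⟨fun c => g2.elim ((col_iso φ _).some.symm c)⟩
  rw [ce, ce] at g4
  obtain ⟨c⟩ := h1
  have hs := surj_of_min h2 c
  have b2 := ptn_pos c hs
  have b3 := ptn_succ_pos c hs (by simp; omega)
  refine ⟨Fintype.card V, G, ?_, h3, b3, ?_, fun hm w => ?_⟩
  · have := (SimpleGraph.chromaticNumber_eq_iff_colorable_not_colorable (G := G) (n := m + 1)).2
      ⟨(colorable_iff _ _).2 ⟨c⟩, fun h => h2.elim ((colorable_iff _ _).1 h).some⟩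
    rw [this]; push_cast; ring
  · have u3 := ptn_le G (m + 3)
    have l4 := col_le G (m + 3)
    generalize (Ptn G (m + 2)).ncard = x2 at *
    generalize (Ptn G (m + 3)).ncard = x3 at *
    generalize Nat.card (Col G (m + 3)) = p at *
    change Nat.card (Col G (m + 4)) ≤ (Ptn G (m + 4)).ncard * (m + 4) ^ (m + 4) + (m + 4) * p at l4
    generalize (Ptn G (m + 4)).ncard = x4 at *
    have A0 : 0 < (m + 4) ^ (m + 4) := by positivity
    generalize (m + 4) ^ (m + 4) = A at *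
    have p0 : 0 < p := b3.trans_le u3
    have hpp : p ≤ p ^ 2 := by nlinarith
    have k1 : (K + 1) * p ^ 2 * A ≤ x4 * A := by
      have := g4.trans l4
      have := Nat.mul_le_mul_left (m + 4) hpp
      nlinarith
    have k2 : (K + 1) * p ^ 2 ≤ x4 := Nat.le_of_mul_le_mul_right k1 A0
    calc K * x3 ^ 2 ≤ K * p ^ 2 := by gcongr
      _ < (K + 1) * p ^ 2 := by nlinarith
      _ ≤ x4 := k2
      _ ≤ x2 * x4 := Nat.le_mul_of_pos_left _ b2
  · have e := φ.symm.mapNeighborSet w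
    rw [← Nat.card_coe_set_eq, Nat.card_congr e, Nat.card_coe_set_eq]
    exact g5 hm _

end Pool.Agent.MP_ee26cf_co

end
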